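import Pool.Agent.Y14.EC.Main

set_option autoImplicit false

namespace Pool.Agent.Results.MP_d717c6_ag.CompleteExpansion

open Finset Pool.Agent.TH187.EC

/-- The normalised Euler characteristic `- χ(M_g(2g-1)) (2g-1)^3 / (2g-1)!`, where `chi g` is the
Euler characteristic given by the explicit generating series of `Pool.Agent.TH187.EC.Defs`. -/
noncomputable def normalized (g : ℕ) : ℝ :=
  -((chi g : ℚ) : ℝ) * (2 * (g : ℝ) - 1) ^ 3 / ((2 * g - 1).factorial : ℝ)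

/-- `J(x) = ∫_0^1 s x^{-s} / Γ(1 - s) ds`. -/
noncomputable def J (x : ℝ) : ℝ := ∫ s in (0 : ℝ)..1, s * (x ^ (-s) * (Real.Gamma (1 - s))⁻¹)

/-- The derivatives at `0` of the entire function `1 / Γ(1 - s)`. -/
noncomputable def D (k : ℕ) : ℝ := iteratedDeriv k (fun s : ℝ => (Real.Gamma (1 - s))⁻¹) 0

/-- The Euler characteristics of the minimal strata: sign and two-sided bounds for all `g ≥ 1`
(the question), the value up to a relative error `O(1/g)`, and the complete asymptotic expansion in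
powers of `1 / log (2g-1)`, whose first two terms are `2 / log² - 4 γ / log³`. -/
theorem result :
    (∀ g : ℕ, 1 ≤ g → chi g < 0 ∧
      (1 / 40 : ℝ) * (((2 * g - 1).factorial : ℝ) / (2 * (g : ℝ) - 1) ^ 4) ≤ -((chi g : ℚ) : ℝ) ∧
      -((chi g : ℚ) : ℝ) ≤ 2 * (((2 * g - 1).factorial : ℝ) / (2 * (g : ℝ) - 1) ^ 3)) ∧
    (∃ C : ℝ, 0 < C ∧ ∀ g : ℕ, 1 ≤ g → 0 < J (2 * (g : ℝ) - 1) ∧
      |normalized g - 2 * J (2 * (g : ℝ) - 1)| ≤ C / g * J (2 * (g : ℝ) - 1)) ∧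
    (∀ n : ℕ, ∃ C : ℝ, 0 < C ∧ ∀ g : ℕ, 2 ≤ g →
      |normalized g -
        2 * ∑ k ∈ range (n + 1), ((k : ℝ) + 1) * D k / Real.log (2 * (g : ℝ) - 1) ^ (k + 2)| ≤
        C / Real.log (2 * (g : ℝ) - 1) ^ (n + 3)) ∧
    D 0 = 1 ∧ D 1 = -Real.eulerMascheroniConstant := by
  refine ⟨fun g hg => ⟨chi_neg g hg, chi_bounds g hg⟩, ?_, Pool.Agent.Y14.EC.expansion_chi,
    Pool.Agent.Y14.EC.Dk_zero, Pool.Agent.Y14.EC.Dk_one⟩
  obtain ⟨C, hC, h⟩ := Pool.Agent.Y14.EC.rel_all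
  exact ⟨C, hC, fun g hg => ⟨Pool.Agent.Y14.EC.JJ_pos_all hg, h g hg⟩⟩

end Pool.Agent.Results.MP_d717c6_ag.CompleteExpansion
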